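import Pool.Agent.P.MP_36a07b_nt.Main

namespace Pool.Agent.Results.MP_36a07b_nt.Q1

theorem result (h : ℕ → ℤ) (h0 : h 0 = 0) (h1 : h 1 = 1)
    (hr : ∀ n : ℕ, 2 ≤ n → h n = (-1) ^ (Nat.digits 2 n).sum * h (n - 1) + h (n - 2))
    (n : ℕ) (hn : 1 ≤ n) :
    h (2 ^ (2 * n) - 3) ∣ h (2 * (2 ^ (2 * n) - 3)) :=
  Pool.Agent.P.MP_36a07b_nt.q1 h h0 h1 hr n hn

end Pool.Agent.Results.MP_36a07b_nt.Q1
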