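import Pool.Agent.P.MP_36a07b_nt.Main

namespace Pool.Agent.Results.MP_36a07b_nt.Q2

theorem result (h : ℕ → ℤ) (h0 : h 0 = 0) (h1 : h 1 = 1)
    (hr : ∀ n : ℕ, 2 ≤ n → h n = (-1) ^ (Nat.digits 2 n).sum * h (n - 1) + h (n - 2))
    (k : ℕ) (hk : 3 ≤ k) (ho : Odd k) :
    h (2 ^ k - 3) ∣ h (2 * (2 ^ k - 3)) - (-2) :=
  Pool.Agent.P.MP_36a07b_nt.q2 h h0 h1 hr k hk ho

end Pool.Agent.Results.MP_36a07b_nt.Q2
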